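import Pool.Agent.R272.Rook.Dual

set_option autoImplicit false

namespace Pool.Agent.Results.MP_e8bb44_al.RookRepresentatives

open Pool.Agent.R272.Rook

universe u

/-- Both parts of the conjecture, over an arbitrary field `F` (in particular over every finite
field) and for every composition `c` of every `n`: every `λ ∈ J^*` is equivalent to `λ_D` for
some rook placement `D ⊆ Δ_J`, and `λ_D`, `λ_{D'}` are equivalent exactly when `D' = w D` for
some `w ∈ W_R`. -/
theorem result (F : Type u) [Field F] (n : ℕ) (c : Composition n) :
    (∀ l : Module.Dual F (J F c), ∃ D, IsRook c D ∧ Equivalent c l (lam c D)) ∧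
    (∀ D D' : Finset (Fin n × Fin n), IsRook c D → IsRook c D' →
      (Equivalent (F := F) c (lam c D) (lam c D') ↔
        ∃ w : Equiv.Perm (Fin n), (∀ i, c.index (w i) = c.index i) ∧
          D' = D.image fun α => (w α.1, w α.2))) :=
  ⟨exists_equivalent c, fun _ _ hD hD' => equivalent_iff c hD hD'⟩

end Pool.Agent.Results.MP_e8bb44_al.RookRepresentatives
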